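import Pool.Agent.Whit.Final

/-!
# MP_9fbcbb_an: the Whittaker constant equals `ω = 0.7377507574…`
-/

namespace Pool.Agent.Results.MP_9fbcbb_an.WhittakerConstant

open scoped Nat

/-- `M_r = sup_{|z| ≤ r} |f(z)|`. -/
noncomputable def maxMod (f : ℂ → ℂ) (r : ℝ) : ℝ :=
  sSup ((fun z => ‖f z‖) '' Metric.closedBall (0 : ℂ) r)

/-- `limsup_{r → ∞} (log M_r) / r`, in `[-∞, ∞]`. -/
noncomputable def expType (f : ℂ → ℂ) : EReal :=
  Filter.limsup (fun r : ℝ => ((Real.log (maxMod f r) / r : ℝ) : EReal)) Filter.atTop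

/-- Admissible functions: `f` is entire, and `f` and each of its derivatives has a zero in the
closed unit disk. -/
def Admissible (f : ℂ → ℂ) : Prop :=
  Differentiable ℂ f ∧ ∀ n : ℕ, ∃ z : ℂ, ‖z‖ ≤ 1 ∧ iteratedDeriv n f z = 0

/-- The property defining the Whittaker constant. -/
def HasProperty (W : ℝ) : Prop :=
  ∀ f : ℂ → ℂ, Admissible f → expType f < (W : EReal) → ∀ z, f z = 0

/-- `φ(z,q) = ∑_{n ≥ 0} q^{n(n-1)/2} z^n / n!`. -/
noncomputable def phi (z q : ℂ) : ℂ := ∑' n : ℕ, q ^ (n * (n - 1) / 2) * z ^ n / (n ! : ℂ)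

/-- `ω = inf_{|q| ≤ 1} min {|z| : φ(z,q) = 0}`. -/
noncomputable def omega : ℝ := sInf {t : ℝ | ∃ z q : ℂ, ‖q‖ ≤ 1 ∧ phi z q = 0 ∧ t = ‖z‖}

/-- The Whittaker constant, that is the largest `W` with the property, exists and equals `ω`, and
`0.7377507574 < ω < 0.7377507575`. -/
theorem result : IsGreatest {W : ℝ | HasProperty W} omega ∧
    0.7377507574 < omega ∧ omega < 0.7377507575 :=
  Pool.Agent.Whit.tFinal

end Pool.Agent.Results.MP_9fbcbb_an.WhittakerConstant
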